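import Pool.Agent.PVD.StmtsM1

set_option autoImplicit false

open MeasureTheory Filter Topology

namespace Pool.Agent.PVD.M.H91

open Pool.Agent.PVD.L

theorem dic (h1 : Mb1Stmt) (h2 : Mb2Stmt) : DicStmt := by
  intro k m hk hm A h
  obtain ⟨-, hn, -, -, -, hH, hsc, -, -, -, -⟩ := h1 k m hk hm
  have hkey : ∀ (i : Fin 4) (d : Fin (nn k m) → ℝ),
      ∑ j : Fin (nn k m), _root_.PVD.kap (nn k m) (cm k m i) (j.1 + 1) * d j =
        sc k m i * ∑ j : Fin (nn k m), cl (1 / k) i (nd (nn k m) j) * d j := by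
    intro i d
    rw [Finset.mul_sum]
    refine Finset.sum_congr rfl fun j _ => ?_
    rw [h2 k m hk hm i j]
    unfold nd
    rw [hn]
    ring
  have hiff : ∀ (i : Fin 4) (d : Fin (nn k m) → ℝ),
      (∑ j : Fin (nn k m), _root_.PVD.kap (nn k m) (cm k m i) (j.1 + 1) * d j ≤
        Hn k m h (cm k m i)) ↔
      ∑ j : Fin (nn k m), cl (1 / k) i (nd (nn k m) j) * d j ≤ h i := by
    intro i d
    rw [hkey i d, hH h i]
    exact mul_le_mul_iff_right₀ (hsc i)
  ext d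
  constructor
  · rintro ⟨hd, hr⟩
    refine ⟨hd, fun i hi => ?_⟩
    exact (hiff i d).1 (hr _ (Finset.mem_image_of_mem _ hi))
  · rintro ⟨hd, hr⟩
    refine ⟨hd, fun r hr' => ?_⟩
    obtain ⟨i, hi, rfl⟩ := Finset.mem_image.1 hr'
    exact (hiff i d).2 (hr i hi)

end Pool.Agent.PVD.M.H91
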